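import Pool.Agent.MP_ed9623_an.H77.SpecW

/-! The dichotomy at a convex boundary point. -/

open MeasureTheory Filter Topology Set
open scoped ContDiff

namespace Pool.Agent.MP_ed9623_an.H77

open H64

theorem rowDp : OfDp := by
  intro hTh hTr hGp hI hL Ω x τ γ r R a w z f g da dw dz hΩ hc hγ va vw vz hv p1 p2 he
  obtain ⟨t1, t2, t3, t4, t5, t6⟩ := hTr x τ γ hc.un hc.gam
  obtain ⟨m1, -, -, -, m5, -⟩ := hTh x τ γ hc.un hc.gam
  obtain ⟨M, -, hM⟩ := hGp Ω x τ γ 0 r R hc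
  obtain ⟨i1, i2⟩ := hI Ω a w z da dw dz hΩ va vw vz (fun j => (hv j).2.2.2) he
  have hr : r / 2 ≤ r := half_le_self hc.r0.le
  have key : ∀ ζ, (∀ j, Test univ (ζ j)) →
      (E1 γ (tv x τ γ a) (tv x τ γ w) (td x τ γ dw) (tv x τ γ z) ζ ↔
        E1 (fun _ => 0) a w dw z (bv x τ γ ζ)) := fun ζ hζ => by
    obtain ⟨k1, k2, k3⟩ := t6 ζ hζ
    rw [E1, E1, k1 z fun j => (vz.h1 j).m, k2 dw fun j => (vw.h1 j).md,
      k3 a w (fun j => (va.h1 j).m) fun j => (vw.h1 j).m,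
      k3 w a (fun j => (vw.h1 j).m) fun j => (va.h1 j).m]
  have low : ∀ v : Fin 2 → P → ℝ, (∀ j, Van Ωᶜ (v j)) →
      ∀ j, Van (Q (r / 2) \ Qp 0 (r / 2)) (tv x τ γ v j) := fun v h j =>
    (((t1 v).2 _).1 h j).mono fun p hp k => hp.2 ⟨hp.1, (hc.mem p (Q_mono hr hp.1)).1 k⟩
  have y1 := fun j i => ((hM _ _ _ p1).2 j i).cmul (1 / 2)
  have y2 := fun c j i => ((hM _ _ _ p2).2 j i).cmul c
  have n1 := fun j i => (((t2 _ _ p1.vf).1.h1 j).md i).cmul (1 / 2)
  have n2 := fun c j i => (((t2 _ _ p2.vf).1.h1 j).md i).cmul c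
  obtain ⟨r', r0, -, hd⟩ := hL γ (r / 2) (tv x τ γ a) (td x τ γ da) (tv x τ γ w) (td x τ γ dw)
    (tv x τ γ z) (td x τ γ dz) hc.gam hγ (half_pos hc.r0)
    { va := (t2 _ _ va).1
      vw := (t2 _ _ vw).1
      vz := (t2 _ _ vz).1
      na := low a fun j => (hv j).1
      nw := low w fun j => (hv j).2.1
      nz := low z fun j => (hv j).2.2.1
      ta := fun j i => ⟨_, ((y1 j i).add (y2 (1 / 2) j i) (n1 j i) (n2 _ j i)).congr
        (Eventually.of_forall fun p _ => by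
          simp only [td, Fin.sum_univ_two]
          ring)⟩
      tw := fun j i => ⟨_, ((y1 j i).add (y2 (-1 / 2) j i) (n1 j i) (n2 _ j i)).congr
        (Eventually.of_forall fun p _ => by
          simp only [td, Fin.sum_univ_two]
          ring)⟩
      e1 := fun ζ hζ => (key ζ fun j => (hζ j).top).2 (he _ fun j =>
        ((t4 _ ζ hζ).1 j).mono fun q hq => by
          rw [← Th_Thi (x := x) (γ := γ) hc.un q]
          exact (hc.mem _ (Q_mono hr hq.1)).2 hq.2)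
      eg := fun h hh => (key (grad γ h) fun j => (hh.dd hc.gam j).top).2 (by
        rw [(t5 h hh.1).2]
        exact i2 _ (m5 _ h hh).2.top)
      tr := (m1.quasiMeasurePreserving.ae i1).mono fun p hp => (t3 da dw p).trans hp }
  obtain ⟨ε, ε0, hε⟩ := Metric.mem_nhds_iff.1 (hc.nhds r0).2
  refine ⟨ε, ε0, hd.imp (fun h ζ hζ => ?_) fun h j => (((t1 a).2 _).2 h j).mono hε⟩
  obtain ⟨-, k2, k3⟩ := t4 _ ζ hζ
  rw [← k3]
  refine (key _ fun j => (k2 j).top).1 (h _ fun j => (k2 j).mono fun p hp => ?_)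
  have := hε hp
  rwa [mem_preimage, Thi_Th hc.un] at this

end Pool.Agent.MP_ed9623_an.H77
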