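import Pool.Agent.MP_ed9623_an.H77.SpecZ

/-! Interior bounds of all orders for all time derivatives. -/

open MeasureTheory Filter Topology Set
open scoped ContDiff

namespace Pool.Agent.MP_ed9623_an.H77

open H64

namespace Boot

theorem unif {ι T : Type} [Finite ι] {l : Filter T} {p : ι → ℝ → T → Prop}
    (hm : ∀ i M M' t, M ≤ M' → p i M t → p i M' t) (h : ∀ i, ∃ M, 0 ≤ M ∧ ∀ᶠ t in l, p i M t) :
    ∃ M, 0 ≤ M ∧ ∀ᶠ t in l, ∀ i, p i M t := by
  have := Fintype.ofFinite ι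
  choose M h0 h1 using h
  exact ⟨∑ i, M i, Finset.sum_nonneg fun i _ => h0 i, eventually_all.2 fun i => (h1 i).mono
    fun t => hm i _ _ t (Finset.single_le_sum (fun i _ => h0 i) (Finset.mem_univ i))⟩

theorem comb {O : Set P} {k : ℕ} {R : ℝ} (s : Finset ℕ) (c : ℕ → ℝ) (n : ℕ → P → ℝ)
    (h : ∀ i ∈ s, M2 (n i) ∧ HB O k (n i) R) :
    M2 (fun p => ∑ i ∈ s, c i * n i p) ∧
      HB O k (fun p => ∑ i ∈ s, c i * n i p) (∑ i ∈ s, |c i| * R) ∧
      ∀ φ, M2 φ → ∫ x, (∑ i ∈ s, c i * n i x) * φ x = ∑ i ∈ s, c i * ∫ x, n i x * φ x := by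
  induction s using Finset.induction_on with
  | empty => exact ⟨by simpa using M2.zero, fun l _ φ _ => by simp, fun φ _ => by simp⟩
  | insert a s ha ih =>
    obtain ⟨a1, a2, a3⟩ := ih fun i hi => h i (Finset.mem_insert_of_mem hi)
    obtain ⟨b1, b2⟩ := h a (Finset.mem_insert_self _ _)
    simp only [Finset.sum_insert ha]
    refine ⟨(b1.cmul _).add a1, (b2.cmul _).add a2 (b1.cmul _) a1, fun φ hφ => ?_⟩
    simp only [add_mul]
    rw [integral_add ((b1.cmul _).int_mul hφ) (a1.int_mul hφ), a3 φ hφ]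
    simp only [mul_assoc]
    rw [integral_const_mul]

theorem val {O : Set P} {k : ℕ} {M : ℝ} {v : E6} (hv : v ∈ VZ univ) (h0 : ‖v‖ ≤ M)
    (h : ∀ j i, HB O k (gj v j i) M) (j : Fin 2) : HB O (k + 1) (vl v j) M :=
  HB.succ (HB.zero (m2_vl v j) ((nm_co_le v _).trans h0))
    (fun i => ((H1O.zero_iff.1 (hv.1.1 j)).2 i).2.mono (subset_univ _)) (h j)

/-- The bounds at level `k`. -/
def Lev (U : ℝ → E6) (r : ℝ) (k : ℕ) : Prop :=
  ∀ r', 0 < r' → r' < r → ∀ (m : ℕ) (t₀ : ℝ), ∃ M, 0 ≤ M ∧ ∀ᶠ t in 𝓝 t₀,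
    ∀ j i, HB (Q r') (k + 1) (gj (iteratedDeriv m U t) j i) M

theorem Lev.all {U : ℝ → E6} {r : ℝ} {k : ℕ} (h : Lev U r k) (hU : ContDiff ℝ ∞ U) {r' : ℝ}
    (h0 : 0 < r') (h1 : r' < r) (m : ℕ) (t₀ : ℝ) : ∃ M, 0 ≤ M ∧ ∀ᶠ t in 𝓝 t₀, ∀ n ≤ m,
      ‖iteratedDeriv n U t‖ ≤ M ∧ ∀ j i, HB (Q r') (k + 1) (gj (iteratedDeriv n U t) j i) M := by
  obtain ⟨M, a, b⟩ := unif (ι := Fin (m + 1)) (l := 𝓝 t₀)
    (p := fun n M t => ‖iteratedDeriv n U t‖ ≤ M ∧
      ∀ j i, HB (Q r') (k + 1) (gj (iteratedDeriv n U t) j i) M)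
    (fun n M M' t e x => ⟨x.1.trans e, fun j i => (x.2 j i).mono Subset.rfl le_rfl e⟩) fun n => by
      obtain ⟨M, a, b⟩ := h r' h0 h1 n t₀
      have c := (sm_iter hU n).continuous.norm.continuousAt (x := t₀) |>.eventually
        (gt_mem_nhds (lt_add_one _))
      refine ⟨M + (‖iteratedDeriv n U t₀‖ + 1), by positivity, ?_⟩
      filter_upwards [b, c] with t b c
      exact ⟨by linarith, fun j i => (b j i).mono Subset.rfl le_rfl
        (le_add_of_nonneg_right (by positivity))⟩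
  exact ⟨M, a, b.mono fun t x n hn => x ⟨n, Nat.lt_succ_of_le hn⟩⟩

end Boot

open Boot in
theorem rowBoot : OfBoot := by
  intro hH hP hK hS hJ h0 r r' g G U hL p0 p1
  have hv : ∀ m t, iteratedDeriv m U t ∈ VZ univ := fun m t =>
    iter_mem (isClosed_VZ univ) m (Eventually.of_forall hL.vf)
  have key : ∀ k, Lev U r k := by
    intro k
    induction k with
    | zero =>
      intro s s0 s1 m t₀
      obtain ⟨M, a, b⟩ := unif (ι := Fin 2 × Fin 2) (l := 𝓝 t₀)
        (p := fun x M t => HB (Q s) 1 (gj (iteratedDeriv m U t) x.1 x.2) M)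
        (fun n M M' t e x => x.mono Subset.rfl le_rfl e) fun x => by
          simpa only [iter_cp hL.sm, gj] using h0 r s g G U hL s0 s1 x.1 x.2 m t₀ trivial
      exact ⟨M, a, b.mono fun t x j i => x (j, i)⟩
    | succ k ih =>
      intro s s0 s1 m t₀
      have q0 : 0 < (s + r) / 2 := by linarith
      have q1 : (s + r) / 2 < r := by linarith
      have q2 : s < (s + r) / 2 := by linarith
      set ρ := (s + r) / 2
      obtain ⟨M, M0, hM⟩ := ih.all hL.sm q0 q1 (m + 1) t₀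
      obtain ⟨C, C0, hC⟩ := hK (-ρ) ρ (-ρ) ρ (k + 1)
      obtain ⟨D, D0, hD, -⟩ := hH.2.2 (Q ρ) k G (Q_eq_ball ρ ▸ Metric.isBounded_ball) hL.tG.1
      set S : ℝ := ∑ i ∈ Finset.range (m + 1), |(m.choose i : ℝ)| * (C * (M * M) + C * (M * M))
      have S0 : 0 ≤ S := Finset.sum_nonneg fun i _ => by positivity
      obtain ⟨E, E0, hE⟩ := hS k ρ s (M + S + D) s0 q2 (by positivity)
      refine ⟨E, E0, hM.mono fun t ht => ?_⟩
      have hp := fun i (hi : i ∈ Finset.range (m + 1)) (j l : Fin 2) =>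
        hC (vl (iteratedDeriv i U t) l) (gj (iteratedDeriv (m - i) U t) j l) M M (m2_vl _ _)
          (m2_gj _ _ _) M0 M0
          ((val (hv i t) (ht i (Finset.mem_range.1 hi).le).1 (ht i (Finset.mem_range.1 hi).le).2
            l).mono Subset.rfl (by omega) le_rfl) ((ht (m - i) (by omega)).2 j l)
      have hn := fun j : Fin 2 => comb (O := Q ρ) (k := k + 1) (Finset.range (m + 1))
        (fun i => (m.choose i : ℝ)) (fun i p =>
          (Q ρ).indicator (fun p => vl (iteratedDeriv i U t) 0 p *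
            gj (iteratedDeriv (m - i) U t) j 0 p) p +
          (Q ρ).indicator (fun p => vl (iteratedDeriv i U t) 1 p *
            gj (iteratedDeriv (m - i) U t) j 1 p) p)
        fun i hi => ⟨(hp i hi j 0).1.add (hp i hi j 1).1,
          (hp i hi j 0).2.add (hp i hi j 1).2 (hp i hi j 0).1 (hp i hi j 1).1⟩
      have e1 : M ≤ M + S + D := by linarith
      refine hE (vl (iteratedDeriv m U t)) (vl (iteratedDeriv (m + 1) U t)) _
        (gj (iteratedDeriv m U t)) (gj (iteratedDeriv (m + 1) U t))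
        (fun p => (if m = 0 then 1 else 0) * G p) (mem_VZ.1 (hv m t)).1 (hv (m + 1) t).1.1
        (fun j => ⟨(nm_co_le _ _).trans ((ht m (by omega)).1.trans e1),
          fun i => (nm_co_le _ _).trans ((ht m (by omega)).1.trans e1)⟩)
        (hL.tG.m2.cmul _) ((hD.cmul _).mono Subset.rfl le_rfl ?_)
        (fun j => ⟨(hn j).1, (hn j).2.1.mono Subset.rfl le_rfl (by linarith), fun i =>
          ⟨((ht m (by omega)).2 j i).mono Subset.rfl le_rfl e1,
            ((ht (m + 1) le_rfl).2 j i).mono Subset.rfl (by omega) e1⟩⟩) fun θ hθ => ?_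
      · split_ifs
        · rw [abs_one, one_mul]; linarith
        · rw [abs_zero, zero_mul]; positivity
      have hθ' := hθ.mono (Q_mono q1.le)
      have hζ := fun j => hθ.perp Gam.zero j
      rw [hJ r g G U hL m t θ hθ', add_assoc]
      have z : ∀ x y w : ℝ, y = 0 → x = w → x + y = w := fun x y w a b => by rw [a, b, add_zero]
      refine z _ _ _ ?_ ?_
      swap
      · split_ifs
        · simp only [one_mul]
          rw [← hL.cu θ hθ', neg_neg]
        · simp
      rw [ip, Finset.sum_congr rfl fun j _ => (hn j).2.2 _ (hζ j).m2, Finset.sum_comm,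
        ← Finset.sum_add_distrib]
      refine Finset.sum_eq_zero fun i _ => ?_
      rw [hP.2 _ _ _ _ _ _ Gam.zero (mem_VZ.1 (hv i t)).1 (hv (m - i) t).1.1 fun j => (hζ j).top,
        ← Finset.mul_sum, ← mul_add, neg_add_eq_zero.2, mul_zero]
      refine Finset.sum_congr rfl fun j _ =>
        int_test_congr (fun _ => (hζ j).off) (Eventually.of_forall fun p hp => ?_)
      rw [indicator_of_mem hp, indicator_of_mem hp]
      exact Fin.sum_univ_two _
  intro k j m t₀ _
  obtain ⟨M, a, b⟩ := (key k).all hL.sm p0 p1 m t₀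
  refine ⟨M, a, b.mono fun t x => ?_⟩
  rw [iter_cp hL.sm]
  exact (val (hv m t) (x m le_rfl).1 (x m le_rfl).2 j).mono Subset.rfl (by omega) le_rfl

end Pool.Agent.MP_ed9623_an.H77
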